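import Pool.Agent.H29.Tail1

open Set Metric Filter Topology

namespace Pool.Agent.Results.MP_2c23da_an.Counter

variable (X : Type) [NormedAddCommGroup X] [NormedSpace ℝ X]

/-- the slice index of thickness -/
noncomputable def Ts : ℝ :=
  sInf {r | 0 < r ∧ ∃ (x : X) (f : X →L[ℝ] ℝ) (α : ℝ), ‖x‖ = 1 ∧ ‖f‖ = 1 ∧ 0 < α ∧
    {y : X | ‖y‖ ≤ 1 ∧ 1 - α < f y} ⊆ closedBall x r}

/-- the weak-star slice index of thickness of the dual space -/
noncomputable def TsStar : ℝ :=
  sInf {r | 0 < r ∧ ∃ (f : X →L[ℝ] ℝ) (x : X) (α : ℝ), ‖f‖ = 1 ∧ ‖x‖ = 1 ∧ 0 < α ∧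
    {g : X →L[ℝ] ℝ | ‖g‖ ≤ 1 ∧ 1 - α < g x} ⊆ closedBall f r}

variable {X} in
/-- the image of the unit ball is relatively weakly compact -/
def WeaklyCompact (T : X →L[ℝ] X) : Prop :=
  IsCompact (closure (toWeakSpace ℝ X '' (T '' closedBall 0 1)))

/-- the infimum of `‖T + I‖` over weakly compact operators of norm one -/
noncomputable def W : ℝ :=
  sInf {c | ∃ T : X →L[ℝ] X, ‖T‖ = 1 ∧ WeaklyCompact T ∧ c = ‖T + ContinuousLinearMap.id ℝ X‖}

open H29.Tail

/-- the space -/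
abbrev Y : Type := WithLp 2 (E × ℝ)

lemma nsq (y : Y) : ‖y‖ ^ 2 = ‖y.fst‖ ^ 2 + y.snd ^ 2 := by
  rw [WithLp.prod_norm_sq_eq_of_L2, Real.norm_eq_abs, sq_abs]

/-- the distinguished point -/
noncomputable def p : Y := WithLp.toLp 2 (0, 1)

/-- the distinguished functional -/
noncomputable def l : Y →L[ℝ] ℝ := WithLp.sndL 2 ℝ E ℝ

lemma np : ‖p‖ = 1 := by simp [p]

lemma nl : ‖l‖ = 1 := le_antisymm (l.opNorm_le_bound zero_le_one fun y => by
  rw [one_mul]; exact WithLp.norm_snd_le _ y) (by simpa [np, l, p] using l.le_opNorm p)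

lemma notW (T : Y →L[ℝ] Y) (h : WeaklyCompact T) : 1 ≤ ‖T + ContinuousLinearMap.id ℝ Y‖ := by
  by_contra h1
  obtain ⟨u, hu⟩ : IsUnit (-T) := by
    have := (Units.oneSub (T + 1) (not_le.1 h1)).isUnit
    simpa using this
  obtain ⟨S, hS⟩ : ∃ S : Y →L[ℝ] Y, ∀ y, S (T y) = y := ⟨-(u⁻¹ : Units _), fun y => by
    have := congrArg (fun A : Y →L[ℝ] Y => A y) u.inv_mul
    simpa [hu] using this⟩
  let s : ℕ → Y := fun n => WithLp.toLp 2 (mk (fun j => if j ≤ n then 1 else 0) n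
    fun _ h => if_neg h.not_ge, 0)
  have hs : ∀ n, ‖s n‖ ≤ 1 := fun n => by
    simp only [s, WithLp.norm_toLp_fst]
    exact norm_le _ fun k => by
      show |if k ≤ n then (1:ℝ) else 0| ≤ 1
      split_ifs <;> simp
  obtain ⟨z, -, hz⟩ := h.exists_mapClusterPt (f := atTop) (u := fun n => toWeakSpace ℝ Y (T (s n)))
    (le_principal_iff.2 (mem_map.2 (Eventually.of_forall fun n =>
      subset_closure ⟨_, ⟨_, mem_closedBall_zero_iff.2 (hs n), rfl⟩, rfl⟩)))
  have k : ∀ j, (S ((toWeakSpace ℝ Y).symm z)).fst j = 1 := fun j => by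
    have c := hz.continuousAt_comp (WeakBilin.eval_continuous (topDualPairing ℝ Y).flip
      ((ev j).comp ((WithLp.fstL 2 ℝ E ℝ).comp S))).continuousAt
    have t : Tendsto (fun n => ev j (S (T (s n))).fst) atTop (𝓝 1) :=
      tendsto_const_nhds.congr' ((eventually_ge_atTop j).mono fun n hn => by
        simp only [hS]; exact (if_pos hn).symm)
    exact eq_of_nhds_neBot (c.clusterPt.mono t)
  exact one_ne_zero (tendsto_nhds_unique tendsto_const_nhds ((tend _).congr k))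

/-- There is a nonzero real Banach space for which `W` exceeds both slice indices of thickness. -/
theorem result :
    ∃ (X : Type) (_ : NormedAddCommGroup X) (_ : NormedSpace ℝ X) (_ : CompleteSpace X),
      Nontrivial X ∧ max (Ts X) (TsStar X) < W X := by
  refine ⟨Y, inferInstance, inferInstance, inferInstance, ⟨p, 0, norm_ne_zero_iff.1 (by
    rw [np]; exact one_ne_zero)⟩, lt_of_le_of_lt (b := 1 / 2) (max_le ?_ ?_)
    (lt_of_lt_of_le (b := 1) (by norm_num) (le_csInf ⟨_, l.smulRight p, ?_, ?_, rfl⟩ ?_))⟩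
  · refine csInf_le ⟨0, fun _ h => h.1.le⟩ ⟨by norm_num, p, l, 1 / 8, np, nl, by norm_num,
      fun y hy => ?_⟩
    have h1 : 1 - 1 / 8 < y.snd := hy.2
    have h2 := pow_le_one₀ (norm_nonneg _) hy.1 (n := 2)
    rw [mem_closedBall_iff_norm, ← sq_le_sq₀ (norm_nonneg _) (by norm_num), nsq]
    rw [nsq] at h2
    have e1 : (y - p).fst = y.fst := sub_zero _
    have e2 : (y - p).snd = y.snd - 1 := rfl
    rw [e1, e2]
    nlinarith
  · refine csInf_le ⟨0, fun _ h => h.1.le⟩ ⟨by norm_num, l, p, 1 / 32, nl, np, by norm_num,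
      fun g hg => ?_⟩
    rw [mem_closedBall_iff_norm]
    have k : ∀ y : Y, ‖y‖ = 1 → (g - l) y ≤ 1 / 2 := fun y hy => by
      have h1 := le_of_abs_le (g.le_of_opNorm_le hg.1 (p + (1 / 4 : ℝ) • (y - y.snd • p)))
      have h2 := nsq y
      have h3 : ‖p + (1 / 4 : ℝ) • (y - y.snd • p)‖ ≤ 33 / 32 := by
        rw [← sq_le_sq₀ (norm_nonneg _) (by norm_num), nsq]
        have e1 : (p + (1 / 4 : ℝ) • (y - y.snd • p)).fst = (1 / 4 : ℝ) • y.fst := by simp [p]
        have e2 : (p + (1 / 4 : ℝ) • (y - y.snd • p)).snd = 1 := by simp [p]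
        rw [e1, e2, norm_smul, mul_pow]
        rw [hy] at h2
        norm_num
        nlinarith [sq_nonneg y.snd]
      have h4 := le_of_abs_le (g.le_of_opNorm_le_of_le hg.1 np.le)
      have h5 := abs_le.1 (show |y.snd| ≤ 1 from hy ▸ WithLp.norm_snd_le _ y)
      simp only [map_add, map_smul, map_sub, smul_eq_mul] at h1
      show g y - y.snd ≤ _
      nlinarith [hg.2]
    exact ContinuousLinearMap.opNorm_le_of_unit_norm (by norm_num) fun y hy => abs_le.2
      ⟨by have := k (-y) (by rwa [norm_neg]); rw [map_neg] at this; linarith, k y hy⟩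
  · rw [ContinuousLinearMap.norm_smulRight_apply, nl, np, mul_one]
  · have c : IsCompact (toWeakSpace ℝ Y '' ((fun t : ℝ => t • p) '' Icc (-1) 1)) :=
      (isCompact_Icc.image (by fun_prop)).image (toWeakSpaceCLM ℝ Y).continuous
    refine c.of_isClosed_subset isClosed_closure (closure_minimal (image_mono ?_) c.isClosed)
    rintro _ ⟨y, hy, rfl⟩
    exact ⟨l y, abs_le.1 ((l.le_of_opNorm_le_of_le nl.le (mem_closedBall_zero_iff.1 hy)).trans_eq
      (mul_one 1)), rfl⟩
  · rintro _ ⟨T, -, h, rfl⟩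
    exact notW T h

end Pool.Agent.Results.MP_2c23da_an.Counter
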